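import Pool.Agent.W559.GF.Stm

/-!
The generic fibre (BcStm).
-/

set_option autoImplicit false

open AlgebraicGeometry CategoryTheory Limits

namespace Pool.Agent.W191.GF

open Pool.Agent.W559.GF

section

variable {O K F : Type} [CommRing O] [IsDomain O] [Field K] [Algebra O K]
  [IsFractionRing O K] [Field F] [Algebra K F] [Algebra O F] [IsScalarTower O K F]

/-- the ring of the generic fibre of the chart -/
abbrev BB (K : Type) {F : Type} [Field K] [Field F] [Algebra K F] (A : Subring F) : Subring F :=
  (Algebra.adjoin K (A : Set F)).toSubring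

theorem le_BB (A : Subring F) : A ≤ BB K A := fun _ hx => Algebra.subset_adjoin hx

theorem alg_mem (A : Subring F) (k : K) : algebraMap K F k ∈ BB K A :=
  (Algebra.adjoin K (A : Set F)).algebraMap_mem k

/-- the structure morphism of the generic fibre -/
def psi (A : Subring F) : K →+* BB K A := (algebraMap K F).codRestrict (BB K A) (alg_mem A)

/-- the inclusion -/
def inc (A : Subring F) : A →+* BB K A := Subring.inclusion (le_BB A)

/-- the structure morphism of the chart -/
def phi (A : Subring F) (h : ∀ o, algebraMap O F o ∈ A) : O →+* A :=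
  (algebraMap O F).codRestrict A h

theorem frac (A : Subring F) (h : ∀ o, algebraMap O F o ∈ A) (b : F)
    (hb : b ∈ Algebra.adjoin K (A : Set F)) :
    ∃ o ∈ nonZeroDivisors O, b * algebraMap O F o ∈ A := by
  induction hb using Algebra.adjoin_induction with
  | mem x hx => exact ⟨1, Submonoid.one_mem _, by simpa using hx⟩
  | algebraMap k =>
    obtain ⟨a, o, ho, hk⟩ := IsFractionRing.div_surjective (A := O) k
    refine ⟨o, ho, ?_⟩
    have h1 : algebraMap O K o ≠ 0 := IsFractionRing.to_map_ne_zero_of_mem_nonZeroDivisors ho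
    have : algebraMap K F k * algebraMap O F o = algebraMap O F a := by
      rw [IsScalarTower.algebraMap_apply O K F, IsScalarTower.algebraMap_apply O K F, ← map_mul,
        ← hk, div_mul_cancel₀ _ h1]
    rw [this]
    exact h a
  | add x y _ _ hx hy =>
    obtain ⟨o, ho, hx⟩ := hx
    obtain ⟨o', ho', hy⟩ := hy
    refine ⟨o * o', Submonoid.mul_mem _ ho ho', ?_⟩
    have : (x + y) * algebraMap O F (o * o') = (x * algebraMap O F o) * algebraMap O F o' +
        (y * algebraMap O F o') * algebraMap O F o := by
      rw [map_mul]; ring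
    rw [this]
    exact A.add_mem (A.mul_mem hx (h _)) (A.mul_mem hy (h _))
  | mul x y _ _ hx hy =>
    obtain ⟨o, ho, hx⟩ := hx
    obtain ⟨o', ho', hy⟩ := hy
    refine ⟨o * o', Submonoid.mul_mem _ ho ho', ?_⟩
    have : (x * y) * algebraMap O F (o * o') =
        (x * algebraMap O F o) * (y * algebraMap O F o') := by
      rw [map_mul]; ring
    rw [this]
    exact A.mul_mem hx hy

theorem po (A : Subring F) (h : ∀ o, algebraMap O F o ∈ A) :
    IsPushout (CommRingCat.ofHom (phi A h)) (CommRingCat.ofHom (algebraMap O K))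
      (CommRingCat.ofHom (inc (K := K) A)) (CommRingCat.ofHom (psi (K := K) A)) := by
  let _ : Algebra A (BB K A) := (inc (K := K) A).toAlgebra
  have hloc : IsLocalization ((nonZeroDivisors O).map (phi A h)) (BB K A) := by
    have hval : ∀ a : A, ((algebraMap A (BB K A) a : BB K A) : F) = a := fun a => rfl
    refine ⟨?_, ?_, ?_⟩
    · rintro ⟨_, o, ho, rfl⟩
      have h1 : algebraMap O K o ≠ 0 := IsFractionRing.to_map_ne_zero_of_mem_nonZeroDivisors ho
      refine IsUnit.of_mul_eq_one ((psi (K := K) A) (algebraMap O K o)⁻¹) ?_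
      apply Subtype.ext
      show algebraMap O F o * algebraMap K F (algebraMap O K o)⁻¹ = 1
      rw [IsScalarTower.algebraMap_apply O K F, ← map_mul, mul_inv_cancel₀ h1, map_one]
    · intro b
      obtain ⟨o, ho, hb⟩ := frac (O := O) (K := K) A h b.1 b.2
      refine ⟨⟨⟨_, hb⟩, ⟨phi A h o, o, ho, rfl⟩⟩, ?_⟩
      apply Subtype.ext
      rfl
    · intro x y hxy
      refine ⟨1, ?_⟩
      have := congrArg (fun z : BB K A => (z : F)) hxy
      simp only [hval] at this
      rw [Subtype.ext this]
  have H : (psi (K := K) A).comp (algebraMap O K) = (algebraMap A (BB K A)).comp (phi A h) := by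
    ext o
    show algebraMap K F (algebraMap O K o) = algebraMap O F o
    rw [← IsScalarTower.algebraMap_apply]
  exact CommRingCat.isPushout_of_isLocalization (phi A h) (psi (K := K) A) H (nonZeroDivisors O)

end

theorem bc : BcStm := by
  intro O K F _ _ _ _ _ _ _ _ _ Z f T A hA
  obtain ⟨η, hη, U, hU, hch⟩ := hA
  set g := Spec.map (CommRingCat.ofHom (algebraMap O K)) with hg
  have hOF : (algebraMap O F) = (algebraMap K F).comp (algebraMap O K) :=
    IsScalarTower.algebraMap_eq O K F
  have hηg : η ≫ f = Spec.map (CommRingCat.ofHom (algebraMap K F)) ≫ g := by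
    rw [hη, hg, ← Spec.map_comp, ← CommRingCat.ofHom_comp, ← hOF]
  refine ⟨pullback.lift η (Spec.map (CommRingCat.ofHom (algebraMap K F))) hηg,
    pullback.lift_snd _ _ _, fun t => (pullback.fst f g) ⁻¹ᵁ (U t), ?_, fun t => ?_⟩
  · have h1 : (pullback.fst f g) ⁻¹ᵁ (⨆ t, U t) = ⨆ t, (pullback.fst f g) ⁻¹ᵁ (U t) :=
      Scheme.Hom.preimage_iSup _ _
    rw [← h1, hU]
    rfl
  · obtain ⟨j, hj, hjU, hjη⟩ := hch t
    -- the structure morphism of the chart
    obtain ⟨φ', hφ'⟩ : ∃ φ : CommRingCat.of O ⟶ CommRingCat.of (A t), Spec.map φ = j ≫ f :=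
      ⟨Spec.preimage (j ≫ f), Spec.map_preimage _⟩
    have hsub : φ' ≫ CommRingCat.ofHom (A t).subtype = CommRingCat.ofHom (algebraMap O F) := by
      apply Spec.map_injective
      rw [Spec.map_comp, hφ', ← Category.assoc, hjη, hη]
    have hmem : ∀ o, algebraMap O F o ∈ A t := by
      intro o
      have := congrArg (fun h : CommRingCat.of O ⟶ CommRingCat.of F => h.hom o) hsub
      have h2 : ((φ'.hom o : A t) : F) = algebraMap O F o := this
      rw [← h2]
      exact (φ'.hom o).2
    have hφ : Spec.map (CommRingCat.ofHom (phi (A t) hmem)) = j ≫ f := by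
      rw [← hφ']
      congr 1
      ext o
      have := congrArg (fun h : CommRingCat.of O ⟶ CommRingCat.of F => h.hom o) hsub
      exact this.symm
    have hpb := isPullback_SpecMap_of_isPushout _ _ _ _ (po (K := K) (A t) hmem)
    rw [hφ] at hpb
    have hw : (Spec.map (CommRingCat.ofHom (inc (K := K) (A t))) ≫ j) ≫ f =
        Spec.map (CommRingCat.ofHom (psi (K := K) (A t))) ≫ g := by
      rw [Category.assoc]
      exact hpb.w
    set j' : Spec (CommRingCat.of (BB K (A t))) ⟶ pullback f g :=
      pullback.lift (Spec.map (CommRingCat.ofHom (inc (K := K) (A t))) ≫ j)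
        (Spec.map (CommRingCat.ofHom (psi (K := K) (A t)))) hw with hj'
    have hfst : j' ≫ pullback.fst f g = Spec.map (CommRingCat.ofHom (inc (K := K) (A t))) ≫ j :=
      pullback.lift_fst _ _ _
    have hsnd : j' ≫ pullback.snd f g = Spec.map (CommRingCat.ofHom (psi (K := K) (A t))) :=
      pullback.lift_snd _ _ _
    have hP : IsPullback (pullback.fst f g) (pullback.snd f g) f g := IsPullback.of_hasPullback f g
    have hpb' : IsPullback (Spec.map (CommRingCat.ofHom (inc (K := K) (A t))))
        (j' ≫ pullback.snd f g) (j ≫ f) g := by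
      rw [hsnd]
      exact hpb
    have hsq : IsPullback (Spec.map (CommRingCat.ofHom (inc (K := K) (A t)))) j' j
        (pullback.fst f g) := IsPullback.of_bot hpb' hfst.symm hP
    have hoi : IsOpenImmersion j' :=
      MorphismProperty.of_isPullback (P := @IsOpenImmersion) hsq hj
    refine ⟨j', hoi, ?_, ?_⟩
    · have h1 := IsOpenImmersion.image_preimage_eq_preimage_image_of_isPullback hsq ⊤
      show Scheme.Hom.opensRange j' = pullback.fst f g ⁻¹ᵁ U t
      rw [← hjU]
      rw [Scheme.Hom.image_top_eq_opensRange] at h1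
      rw [← h1]
      exact (Scheme.Hom.image_top_eq_opensRange j').symm
    · apply pullback.hom_ext
      · rw [Category.assoc, hfst, pullback.lift_fst, ← Category.assoc, ← Spec.map_comp, ← hjη]
        rfl
      · rw [Category.assoc, hsnd, pullback.lift_snd, ← Spec.map_comp]
        rfl

end Pool.Agent.W191.GF
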